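import Mathlib
import Pool.Agent.Helper71.PR.Main

/-!
Compact flats are dense for discrete Zariski dense subgroups of `SL_n(ℝ)`, `n ≥ 3`, of full Prasad-Raghunathan rank.
-/

set_option autoImplicit false

namespace Pool.Agent.Results.MP_af9e5e_al.DenseFlats

open Pool.Agent.Helper71.PR

/-- Let `n ≥ 3` and let `Γ` be a discrete Zariski dense subgroup of `SL_n(ℝ)` of Prasad-Raghunathan rank `n - 1`. Every
`g ∈ SL_n(ℝ)` is a limit of `k ∈ SL_n(ℝ)` such that the diagonal matrices in `k⁻¹ Γ k` are cocompact in the group of diagonal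
matrices of determinant one. -/
theorem result (n : ℕ) (hn : 3 ≤ n) (Γ : Subgroup (Matrix.SpecialLinearGroup (Fin n) ℝ)) (hd : DiscreteTopology Γ)
    (hZ : ZD Γ) (hr : prRank Γ = n - 1) :
    ∀ g : Matrix.SpecialLinearGroup (Fin n) ℝ, ∀ ε > 0, ∃ k : Matrix.SpecialLinearGroup (Fin n) ℝ,
      (∀ i j, |k.1 i j - g.1 i j| ≤ ε) ∧
      ∃ R : ℝ, ∀ y : Fin n → ℝ, ∑ i, y i = 0 → ∃ γ ∈ Γ, ∃ μ : Fin n → ℝ,
        γ.1 = k.1 * Matrix.diagonal μ * k.1⁻¹ ∧ ∀ i, |Real.log |μ i| - y i| ≤ R := by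
  intro g ε hε
  obtain ⟨k, hk, hn⟩ := main1 hn Γ hd hZ hr g ε hε
  exact ⟨k, hn, hk⟩

end Pool.Agent.Results.MP_af9e5e_al.DenseFlats
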