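import Mathlib
import Pool.Agent.Helper71.PR.Main

/-!
Discrete Zariski dense subgroups of `SL_n(ℝ)`, `n ≥ 3`, of full Prasad-Raghunathan rank act minimally on the full flag variety.
-/

set_option autoImplicit false

namespace Pool.Agent.Results.MP_af9e5e_al.MinimalFlags

open Pool.Agent.Helper71.PR

/-- Let `n ≥ 3` and let `Γ` be a discrete Zariski dense subgroup of `SL_n(ℝ)` of Prasad-Raghunathan rank `n - 1`. For every
`g ∈ SL_n(ℝ)` the set `Γ g B` is dense in `SL_n(ℝ)`, `B` the group of upper triangular matrices. -/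
theorem result (n : ℕ) (hn : 3 ≤ n) (Γ : Subgroup (Matrix.SpecialLinearGroup (Fin n) ℝ)) (hd : DiscreteTopology Γ)
    (hZ : ZD Γ) (hr : prRank Γ = n - 1) :
    ∀ g h : Matrix.SpecialLinearGroup (Fin n) ℝ, ∀ ε > 0, ∃ γ ∈ Γ, ∃ b : Matrix.SpecialLinearGroup (Fin n) ℝ,
      (∀ i j, j < i → b.1 i j = 0) ∧ ∀ i j, |(γ * g * b).1 i j - h.1 i j| ≤ ε := by
  intro g h ε hε
  obtain ⟨γ, hγ, b, hb, hn⟩ := main2 hn Γ hd hZ hr g h ε hε
  exact ⟨γ, hγ, b, hb, hn⟩

end Pool.Agent.Results.MP_af9e5e_al.MinimalFlags
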