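import Mathlib
import Pool.Agent.Helper71.PR.Main

/-!
For discrete Zariski dense subgroups of `SL_n(ℝ)`, `n ≥ 3`, of full Prasad-Raghunathan rank the group of diagonal matrices acts
topologically transitively on `Γ \ SL_n(ℝ)`.
-/

set_option autoImplicit false

namespace Pool.Agent.Results.MP_af9e5e_al.TransitiveDiagonal

open Pool.Agent.Helper71.PR

/-- Let `n ≥ 3` and let `Γ` be a discrete Zariski dense subgroup of `SL_n(ℝ)` of Prasad-Raghunathan rank `n - 1`. The group `D` of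
diagonal matrices of determinant one acts topologically transitively on `Γ \ SL_n(ℝ)`: for all `g, h` and `ε > 0` some point of
`Γ g' D`, `g'` within `ε` of `g`, is within `ε` of `h`. -/
theorem result (n : ℕ) (hn : 3 ≤ n) (Γ : Subgroup (Matrix.SpecialLinearGroup (Fin n) ℝ)) (hd : DiscreteTopology Γ)
    (hZ : ZD Γ) (hr : prRank Γ = n - 1) :
    ∀ g h : Matrix.SpecialLinearGroup (Fin n) ℝ, ∀ ε > 0, ∃ γ ∈ Γ, ∃ (g' : Matrix.SpecialLinearGroup (Fin n) ℝ)
      (d : Fin n → ℝ), ∏ i, d i = 1 ∧ (∀ i j, |g'.1 i j - g.1 i j| ≤ ε) ∧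
      ∀ i j, |(γ.1 * g'.1 * Matrix.diagonal d) i j - h.1 i j| ≤ ε := by
  intro g h ε hε
  obtain ⟨γ, hγ, g', d, hd1, h1, h2⟩ := main3 hn Γ hd hZ hr g h ε hε
  exact ⟨γ, hγ, g', d, hd1, h1, h2⟩

end Pool.Agent.Results.MP_af9e5e_al.TransitiveDiagonal
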